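import Pool.Agent.Lib.MP_8c4e2c_gt.CQ.Ser

/-! MP_8c4e2c_gt, CQ. The criterion of Velichko. -/

set_option autoImplicit false

namespace Pool.Agent.Lib.MP_8c4e2c_gt.CQ

open Filter Topology

/-- the bound `1 - 1 / (n + 2)` -/
private noncomputable def bd (n : ℕ) : ℝ := 1 - 1 / ((n : ℝ) + 2)

private noncomputable def cl (n : ℕ) (t : ℝ) : ℝ := max (-bd n) (min (bd n) t)

private noncomputable def TT (n : ℕ) (t : ℝ) : ℝ := cl n t / (1 - |cl n t|)

private theorem bd_lt (n : ℕ) : bd n < 1 := by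
  unfold bd
  have : (0 : ℝ) < 1 / ((n : ℝ) + 2) := by positivity
  linarith

private theorem bd_nonneg (n : ℕ) : 0 ≤ bd n := by
  unfold bd
  have : 1 / ((n : ℝ) + 2) ≤ 1 := by
    rw [div_le_one (by positivity)]
    have : (0 : ℝ) ≤ n := Nat.cast_nonneg n
    linarith
  linarith

private theorem abs_cl_lt (n : ℕ) (t : ℝ) : |cl n t| < 1 := by
  have h1 := bd_lt n
  have h0 := bd_nonneg n
  unfold cl
  rw [abs_lt]
  constructor
  · exact lt_of_lt_of_le (by linarith) (le_max_left _ _)
  · exact max_lt (by linarith) (lt_of_le_of_lt (min_le_left _ _) h1)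

private theorem TT_cont (n : ℕ) : Continuous (TT n) := by
  have hc : Continuous (cl n) := by
    unfold cl
    fun_prop
  unfold TT
  refine hc.div (continuous_const.sub hc.abs) fun t => ?_
  have := abs_cl_lt n t
  linarith

private theorem bd_tendsto : Tendsto bd atTop (𝓝 1) := by
  have h1 : Tendsto (fun n : ℕ => 1 / ((n : ℝ) + 2)) atTop (𝓝 0) := by
    have h2 : Tendsto (fun n : ℕ => (n : ℝ) + 2) atTop atTop :=
      tendsto_atTop_add_const_right _ _ tendsto_natCast_atTop_atTop
    have h3 := h2.inv_tendsto_atTop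
    refine h3.congr fun n => ?_
    rw [Pi.inv_apply, one_div]
  have h3 := (tendsto_const_nhds (x := (1 : ℝ))).sub h1
  rw [sub_zero] at h3
  exact h3

private theorem TT_tendsto {t : ℕ → ℝ} {u : ℝ} (hu : |u| < 1) (ht : Tendsto t atTop (𝓝 u)) :
    Tendsto (fun n => TT n (t n)) atTop (𝓝 (u / (1 - |u|))) := by
  have h1 : ∀ᶠ n in atTop, |t n| < bd n := by
    have h2 : Tendsto (fun n => bd n - |t n|) atTop (𝓝 (1 - |u|)) := bd_tendsto.sub ht.abs
    have h3 : ∀ᶠ n in atTop, 0 < bd n - |t n| := h2.eventually (lt_mem_nhds (by linarith))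
    filter_upwards [h3] with n hn
    linarith
  have h4 : (fun n => t n / (1 - |t n|)) =ᶠ[atTop] fun n => TT n (t n) := by
    filter_upwards [h1] with n hn
    have h5 : cl n (t n) = t n := by
      unfold cl
      rw [abs_lt] at hn
      rw [min_eq_right hn.2.le, max_eq_right hn.1.le]
    simp only [TT, h5]
  refine Tendsto.congr' h4 ?_
  exact ht.div (tendsto_const_nhds.sub ht.abs) (by linarith)

theorem vel {X : Type*} [TopologicalSpace X] {e : X → Q} (he : Continuous e)
    (h : ∀ G : Set X, IsOpen G → Fs e G) :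
    ∃ D : Set {f : X → ℝ // Continuous f}, D.Countable ∧ seqClosure D = Set.univ := by
  let d : ℕ → C(Q, ℝ) := TopologicalSpace.denseSeq C(Q, ℝ)
  have hd : DenseRange d := TopologicalSpace.denseRange_denseSeq _
  let F : ℕ × ℕ → {f : X → ℝ // Continuous f} := fun p =>
    ⟨fun x => TT p.1 (d p.2 (e x)), (TT_cont p.1).comp ((d p.2).continuous.comp he)⟩
  refine ⟨Set.range F, Set.countable_range F, ?_⟩
  rw [Set.eq_univ_iff_forall]
  rintro ⟨f, hf⟩
  have hu : Continuous fun x => f x / (1 + |f x|) := by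
    refine hf.div (continuous_const.add hf.abs) fun x => ?_
    positivity
  have hlt : ∀ x, |f x / (1 + |f x|)| < 1 := by
    intro x
    have h0 : (0 : ℝ) < 1 + |f x| := by positivity
    rw [abs_div, abs_of_pos h0, div_lt_one h0]
    linarith
  have hinv : ∀ x, (f x / (1 + |f x|)) / (1 - |f x / (1 + |f x|)|) = f x := by
    intro x
    have h0 : (0 : ℝ) < 1 + |f x| := by positivity
    rw [abs_div, abs_of_pos h0]
    have h2 : 1 - |f x| / (1 + |f x|) = 1 / (1 + |f x|) := by
      field_simp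
      ring
    rw [h2]
    field_simp
  have hB : B1 e (fun x => f x / (1 + |f x|)) := fun a =>
    ⟨h _ (isOpen_lt hu continuous_const), h _ (isOpen_lt continuous_const hu)⟩
  obtain ⟨hh, hh1⟩ := ser hB (fun x => (hlt x).le)
  have hk : ∀ n : ℕ, ∃ k, dist (hh n) (d k) < 1 / ((n : ℝ) + 1) := fun n =>
    hd.exists_dist_lt (hh n) (by positivity)
  choose k hk using hk
  refine ⟨fun n => F (n, k n), fun n => ⟨(n, k n), rfl⟩, ?_⟩
  rw [tendsto_subtype_rng, tendsto_pi_nhds]
  intro x
  have h5 : Tendsto (fun n => d (k n) (e x)) atTop (𝓝 (f x / (1 + |f x|))) := by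
    have h6 : Tendsto (fun n => d (k n) (e x) - hh n (e x)) atTop (𝓝 0) := by
      have h7 : Tendsto (fun n : ℕ => 1 / ((n : ℝ) + 1)) atTop (𝓝 0) :=
        tendsto_one_div_add_atTop_nhds_zero_nat
      refine squeeze_zero_norm (fun n => ?_) h7
      rw [← dist_eq_norm, dist_comm]
      exact (ContinuousMap.dist_apply_le_dist (e x)).trans (hk n).le
    have h8 := (hh1 x).add h6
    simpa using h8
  have h9 := TT_tendsto (hlt x) h5
  rw [hinv x] at h9
  exact h9

end Pool.Agent.Lib.MP_8c4e2c_gt.CQ
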