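import Pool.Agent.Lib.MP_8c4e2c_gt.CQ.Ord
import Pool.Agent.Lib.MP_8c4e2c_gt.CQ.Vel

/-! MP_8c4e2c_gt, CQ. A base of open `F_sigma` sets for a subspace of a product of ordered spaces. -/

set_option autoImplicit false

namespace Pool.Agent.Lib.MP_8c4e2c_gt.CQ

private theorem fs_univ {X : Type*} {e : X → Q} : Fs e (Set.univ : Set X) := by
  have := fs_closed (e := e) (K := Set.univ) isClosed_univ
  rwa [Set.preimage_univ] at this

private theorem asm_factor {X L : Type*} [LinearOrder L] [TopologicalSpace L] [OrderTopology L] {g : X → L}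
    {e : X → Q} (he : ∀ a : L, Fs e (g ⁻¹' Set.Ioi a) ∧ Fs e (g ⁻¹' Set.Iio a)) {u : Set L} (hu : IsOpen u)
    {y : L} (hy : y ∈ u) : ∃ w ⊆ u, y ∈ w ∧ IsOpen w ∧ Fs e (g ⁻¹' w) := by
  have hb := TopologicalSpace.isTopologicalBasis_of_subbasis (OrderTopology.topology_eq_generate_intervals (α := L))
  obtain ⟨w, hw, hyw, hwu⟩ := hb.exists_subset_of_mem_open hy hu
  refine ⟨w, hwu, hyw, hb.isOpen hw, ?_⟩
  obtain ⟨f, ⟨hf, hfs⟩, rfl⟩ := hw
  clear hyw hwu
  revert hfs
  induction f, hf using Set.Finite.induction_on with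
  | empty =>
    intro _
    change Fs e (g ⁻¹' (⋂₀ ∅))
    rw [Set.sInter_empty, Set.preimage_univ]
    exact fs_univ
  | @insert a s _ _ ih =>
    intro hfs
    change Fs e (g ⁻¹' (⋂₀ (insert a s)))
    rw [Set.sInter_insert, Set.preimage_inter]
    refine fs_inter ?_ (ih fun b hb' => hfs (Set.mem_insert_of_mem _ hb'))
    obtain ⟨c, rfl | rfl⟩ := hfs (Set.mem_insert a s)
    · exact (he c).1
    · exact (he c).2

theorem local_fs {X : Type*} [TopologicalSpace X] {L : ℕ → Type*} [∀ n, LinearOrder (L n)]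
    [∀ n, TopologicalSpace (L n)] [∀ n, OrderTopology (L n)] {i : X → ∀ n, L n} (hi : Topology.IsInducing i)
    {e : X → Q} (he : ∀ n (a : L n), Fs e ((fun x => i x n) ⁻¹' Set.Ioi a) ∧ Fs e ((fun x => i x n) ⁻¹' Set.Iio a))
    {G : Set X} (hG : IsOpen G) {x : X} (hx : x ∈ G) : ∃ T ⊆ G, x ∈ T ∧ IsOpen T ∧ Fs e T := by
  obtain ⟨V, hV, rfl⟩ := hi.isOpen_iff.1 hG
  obtain ⟨I, u, hu, hIV⟩ := isOpen_pi_iff.1 hV (i x) hx
  have hw : ∀ n : ℕ, ∃ w : Set (L n), n ∈ I → (w ⊆ u n ∧ i x n ∈ w ∧ IsOpen w ∧ Fs e ((fun x => i x n) ⁻¹' w)) := by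
    intro n
    by_cases hn : n ∈ I
    · obtain ⟨w, h1, h2, h3, h4⟩ := asm_factor (g := fun x => i x n) (he n) (hu n hn).1 (hu n hn).2
      exact ⟨w, fun _ => ⟨h1, h2, h3, h4⟩⟩
    · exact ⟨Set.univ, fun h => absurd h hn⟩
  choose w hw using hw
  refine ⟨⋂ n ∈ I, (fun x => i x n) ⁻¹' (w n), ?_, ?_, ?_, ?_⟩
  · intro z hz
    refine hIV ?_
    intro n hn
    exact (hw n hn).1 (Set.mem_iInter₂.1 hz n hn)
  · exact Set.mem_iInter₂.2 fun n hn => (hw n hn).2.1
  · refine isOpen_biInter_finset fun n hn => ?_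
    exact (hw n hn).2.2.1.preimage ((continuous_apply n).comp hi.continuous)
  · have key : ∀ J : Finset ℕ, J ⊆ I → Fs e (⋂ n ∈ J, (fun x => i x n) ⁻¹' (w n)) := by
      intro J
      induction J using Finset.induction_on with
      | empty =>
        intro _
        simpa using (fs_univ (e := e))
      | insert a s _ ih =>
        intro hJ
        rw [Finset.set_biInter_insert]
        exact fs_inter (hw a (hJ (Finset.mem_insert_self a s))).2.2.2
          (ih fun b hb => hJ (Finset.mem_insert_of_mem hb))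
    exact key I (Finset.Subset.refl I)

end Pool.Agent.Lib.MP_8c4e2c_gt.CQ
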