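import Pool.Agent.Lib.MP_8c4e2c_gt.CQ.Lin

set_option autoImplicit false

namespace Pool.Agent.Lib.MP_8c4e2c_gt.CQ

theorem cz_open {X : Type*} [TopologicalSpace X] [T35Space X] (hs : HS X) {G : Set X} (hG : IsOpen G) :
    ∃ (e : X → Q) (W : Set Q), Continuous e ∧ IsOpen W ∧ G = e ⁻¹' W := by
  have h0 : ∀ x : X, ∃ f : X → unitInterval, Continuous f ∧ (x ∈ G → f x = 0) ∧ ∀ y, y ∉ G → f y = 1 := by
    intro x
    by_cases hx : x ∈ G
    · obtain ⟨f, h1, h2, h3⟩ := CompletelyRegularSpace.completely_regular x Gᶜ hG.isClosed_compl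
        (fun h => h hx)
      exact ⟨f, h1, fun _ => h2, fun y hy => h3 hy⟩
    · exact ⟨fun _ => 1, continuous_const, fun h => absurd h hx, fun _ _ => rfl⟩
  choose f hf0 hf1 hf2 using h0
  obtain ⟨C, hCG, hC, hcov⟩ := lin_one hs (S := G) (U := fun x => {y | f x y ≠ 1})
    (fun x hx => ⟨isOpen_ne_fun (hf0 x) continuous_const, by
      show f x x ≠ 1
      rw [hf1 x hx]
      exact zero_ne_one⟩)
  rcases C.eq_empty_or_nonempty with he | hne
  · refine ⟨fun _ => 0, ∅, continuous_const, isOpen_empty, ?_⟩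
    rw [Set.preimage_empty]
    apply Set.eq_empty_of_subset_empty
    intro y hy
    have h1 := hcov hy
    rw [he] at h1
    simp at h1
  · obtain ⟨c, hc⟩ := hC.exists_eq_range hne
    refine ⟨fun x n => f (c n) x, ⋃ n : ℕ, {z : Q | z n ≠ 1}, continuous_pi fun n => hf0 (c n),
      isOpen_iUnion fun n => isOpen_ne_fun (continuous_apply n) continuous_const, ?_⟩
    ext y
    rw [Set.mem_preimage, Set.mem_iUnion]
    constructor
    · intro hy
      obtain ⟨x, hx⟩ := Set.mem_iUnion.1 (hcov hy)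
      obtain ⟨hxC, hxy⟩ := Set.mem_iUnion.1 hx
      rw [hc] at hxC
      obtain ⟨n, rfl⟩ := hxC
      exact ⟨n, hxy⟩
    · rintro ⟨n, hn⟩
      by_contra hy
      exact hn (hf2 (c n) y hy)

/-- countably many maps to the cube are combined to one -/
theorem cz_comb {X : Type*} [TopologicalSpace X] (e : ℕ → X → Q) (he : ∀ i, Continuous (e i)) :
    ∃ (E : X → Q) (φ : ℕ → Q → Q), Continuous E ∧ (∀ i, Continuous (φ i)) ∧ ∀ i x, e i x = φ i (E x) := by
  refine ⟨fun x n => e (Nat.unpair n).1 x (Nat.unpair n).2, fun i z m => z (Nat.pair i m), ?_, ?_, ?_⟩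
  · exact continuous_pi fun n => (continuous_apply _).comp (he _)
  · intro i
    exact continuous_pi fun m => continuous_apply _
  · intro i x
    funext m
    simp [Nat.unpair_pair]

theorem cz_all {X : Type*} [TopologicalSpace X] [T35Space X] (hs : HS X) {G : ℕ → Set X}
    (hG : ∀ i, IsOpen (G i)) :
    ∃ e : X → Q, Continuous e ∧ ∀ i, ∃ W : Set Q, IsOpen W ∧ G i = e ⁻¹' W := by
  choose e W he hW hGe using fun i => cz_open hs (hG i)
  obtain ⟨E, φ, hE, hφ, h⟩ := cz_comb e he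
  refine ⟨E, hE, fun i => ⟨φ i ⁻¹' W i, (hW i).preimage (hφ i), ?_⟩⟩
  rw [hGe i]
  ext x
  rw [Set.mem_preimage, Set.mem_preimage, Set.mem_preimage, h i x]

end Pool.Agent.Lib.MP_8c4e2c_gt.CQ
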