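import Mathlib

/-! MP_8c4e2c_gt, CQ. Sets which are `F_sigma` in a coarser second countable topology. -/

set_option autoImplicit false

namespace Pool.Agent.Lib.MP_8c4e2c_gt.CQ

/-- the Hilbert cube -/
abbrev Q : Type := ℕ → unitInterval

/-- `S` is the preimage under `e` of a countable union of closed sets -/
def Fs {X : Type*} (e : X → Q) (S : Set X) : Prop :=
  ∃ K : ℕ → Set Q, (∀ m, IsClosed (K m)) ∧ S = ⋃ m, e ⁻¹' (K m)

/-- `C_p(X)` is hereditarily separable -/
def HS (X : Type*) [TopologicalSpace X] : Prop :=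
  ∀ S : Set {f : X → ℝ // Continuous f}, ∃ c ⊆ S, c.Countable ∧ S ⊆ closure c

end Pool.Agent.Lib.MP_8c4e2c_gt.CQ
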