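import Pool.Agent.Lib.MP_8c4e2c_gt.CQ.Defs

/-! Preimages of `F_sigma` sets. -/

set_option autoImplicit false

namespace Pool.Agent.Lib.MP_8c4e2c_gt.CQ

variable {X : Type*} {e : X → Q}

theorem fs_closed {K : Set Q} (hK : IsClosed K) : Fs e (e ⁻¹' K) :=
  ⟨fun _ => K, fun _ => hK, by rw [Set.iUnion_const]⟩

theorem fs_iUnion {S : ℕ → Set X} (h : ∀ i, Fs e (S i)) : Fs e (⋃ i, S i) := by
  choose K hK hS using h
  refine ⟨fun m => K (Nat.unpair m).1 (Nat.unpair m).2, fun m => hK _ _, ?_⟩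
  ext x
  simp only [Set.mem_iUnion]
  constructor
  · rintro ⟨i, hi⟩
    rw [hS i] at hi
    obtain ⟨j, hj⟩ := Set.mem_iUnion.mp hi
    refine ⟨Nat.pair i j, ?_⟩
    rw [Nat.unpair_pair]
    exact hj
  · rintro ⟨m, hm⟩
    refine ⟨(Nat.unpair m).1, ?_⟩
    rw [hS]
    exact Set.mem_iUnion.mpr ⟨(Nat.unpair m).2, hm⟩

private theorem fs_empty : Fs e (∅ : Set X) :=
  ⟨fun _ => ∅, fun _ => isClosed_empty, by simp⟩

theorem fs_biUnion {ι : Type*} {C : Set ι} (hC : C.Countable) {S : ι → Set X} (h : ∀ i ∈ C, Fs e (S i)) :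
    Fs e (⋃ i ∈ C, S i) := by
  rcases C.eq_empty_or_nonempty with h0 | h0
  · subst h0
    simpa using fs_empty
  · obtain ⟨f, rfl⟩ := hC.exists_eq_range h0
    rw [Set.biUnion_range]
    exact fs_iUnion fun n => h _ (Set.mem_range_self n)

theorem fs_union {S T : Set X} (h : Fs e S) (h' : Fs e T) : Fs e (S ∪ T) := by
  obtain ⟨K, hK, rfl⟩ := h
  obtain ⟨L, hL, rfl⟩ := h'
  refine ⟨fun m => K m ∪ L m, fun m => (hK m).union (hL m), ?_⟩
  rw [← Set.iUnion_union_distrib]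
  rfl

theorem fs_inter {S T : Set X} (h : Fs e S) (h' : Fs e T) : Fs e (S ∩ T) := by
  obtain ⟨K, hK, rfl⟩ := h
  obtain ⟨L, hL, rfl⟩ := h'
  rw [Set.iUnion_inter]
  refine fs_iUnion fun m => ⟨fun n => K m ∩ L n, fun n => (hK m).inter (hL n), ?_⟩
  rw [Set.inter_iUnion]
  rfl

theorem fs_open {G : Set Q} (hG : IsOpen G) : Fs e (e ⁻¹' G) := by
  have hm : TopologicalSpace.MetrizableSpace Q :=
    TopologicalSpace.metrizableSpace_of_t3_secondCountable Q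
  let _ := TopologicalSpace.metrizableSpaceMetric Q
  obtain ⟨F, hF, -, hFG, -⟩ := hG.exists_iUnion_isClosed
  refine ⟨F, hF, ?_⟩
  rw [← hFG, Set.preimage_iUnion]

/-- the reduction property -/
theorem fs_red {A B : Set X} (hA : Fs e A) (hB : Fs e B) (hAB : A ∪ B = Set.univ) :
    ∃ A' B' : Set X, Fs e A' ∧ Fs e B' ∧ A' ⊆ A ∧ B' ⊆ B ∧ Disjoint A' B' ∧ A' ∪ B' = Set.univ := by
  classical
  obtain ⟨K, hK, rfl⟩ := hA
  obtain ⟨L, hL, rfl⟩ := hB
  refine ⟨⋃ m, (e ⁻¹' (K m) ∩ e ⁻¹' (⋃ l ∈ Finset.range m, L l)ᶜ),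
    ⋃ m, (e ⁻¹' (L m) ∩ e ⁻¹' (⋃ l ∈ Finset.range (m + 1), K l)ᶜ), ?_, ?_, ?_, ?_, ?_, ?_⟩
  · refine fs_iUnion fun m => fs_inter (fs_closed (hK m)) (fs_open ?_)
    exact (isClosed_biUnion_finset fun l _ => hL l).isOpen_compl
  · refine fs_iUnion fun m => fs_inter (fs_closed (hL m)) (fs_open ?_)
    exact (isClosed_biUnion_finset fun l _ => hK l).isOpen_compl
  · exact Set.iUnion_mono fun m => Set.inter_subset_left
  · exact Set.iUnion_mono fun m => Set.inter_subset_left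
  · rw [Set.disjoint_left]
    intro x h1 h2
    obtain ⟨m, hm1, hm2⟩ := Set.mem_iUnion.mp h1
    obtain ⟨m', hm1', hm2'⟩ := Set.mem_iUnion.mp h2
    rcases Nat.lt_or_ge m' m with h | h
    · exact hm2 (Set.mem_iUnion₂.mpr ⟨m', Finset.mem_range.mpr h, hm1'⟩)
    · exact hm2' (Set.mem_iUnion₂.mpr ⟨m, Finset.mem_range.mpr (by omega), hm1⟩)
  · ext x
    simp only [Set.mem_univ, iff_true]
    have hx : x ∈ (⋃ m, e ⁻¹' (K m)) ∪ ⋃ m, e ⁻¹' (L m) := by rw [hAB]; trivial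
    by_cases hxK : ∃ m, e x ∈ K m
    · have hmin := Nat.find_spec hxK
      have hlt : ∀ l, l < Nat.find hxK → e x ∉ K l := fun l hl => Nat.find_min hxK hl
      by_cases hxL : ∃ l, l < Nat.find hxK ∧ e x ∈ L l
      · obtain ⟨l, hl, hlL⟩ := hxL
        refine Or.inr (Set.mem_iUnion.mpr ⟨l, hlL, ?_⟩)
        intro h
        obtain ⟨l', hl', h'⟩ := Set.mem_iUnion₂.mp h
        have := Finset.mem_range.mp hl'
        exact hlt l' (by omega) h'
      · refine Or.inl (Set.mem_iUnion.mpr ⟨Nat.find hxK, hmin, ?_⟩)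
        intro h
        obtain ⟨l', hl', h'⟩ := Set.mem_iUnion₂.mp h
        exact hxL ⟨l', Finset.mem_range.mp hl', h'⟩
    · rcases hx with hx | hx
      · obtain ⟨m, hm⟩ := Set.mem_iUnion.mp hx
        exact absurd ⟨m, hm⟩ hxK
      · obtain ⟨m, hm⟩ := Set.mem_iUnion.mp hx
        refine Or.inr (Set.mem_iUnion.mpr ⟨m, hm, ?_⟩)
        intro h
        obtain ⟨l', hl', h'⟩ := Set.mem_iUnion₂.mp h
        exact hxK ⟨l', h'⟩

/-- a change of the map -/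
theorem fs_comp {e' : X → Q} (φ : Q → Q) (hφ : Continuous φ) (he : ∀ x, e' x = φ (e x)) {S : Set X}
    (h : Fs e' S) : Fs e S := by
  obtain ⟨K, hK, rfl⟩ := h
  refine ⟨fun m => φ ⁻¹' (K m), fun m => (hK m).preimage hφ, ?_⟩
  ext x
  simp only [Set.mem_iUnion, Set.mem_preimage, he]

end Pool.Agent.Lib.MP_8c4e2c_gt.CQ
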