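import Pool.Agent.Lib.MP_8c4e2c_gt.CQ.Defs

/-! MP_8c4e2c_gt, CQ. Two Lindelöf lemmas from the hereditary separability of `C_p(X)`. -/

set_option autoImplicit false

namespace Pool.Agent.Lib.MP_8c4e2c_gt.CQ

private theorem lin_gen {X : Type*} [TopologicalSpace X] (hs : HS X) {ι : Type*} (S : Set ι)
    (F : ι → {f : X → ℝ // Continuous f}) (O : ι → Set {f : X → ℝ // Continuous f})
    (hO : ∀ q ∈ S, IsOpen (O q) ∧ F q ∈ O q) :
    ∃ C ⊆ S, C.Countable ∧ ∀ q ∈ S, ∃ s ∈ C, F s ∈ O q := by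
  obtain ⟨c, hc, hcc, hcl⟩ := hs (F '' S)
  have h1 : ∀ f : c, ∃ s ∈ S, F s = f := fun f => hc f.2
  choose g hg1 hg2 using h1
  have := hcc.to_subtype
  refine ⟨Set.range g, ?_, Set.countable_range g, fun q hq => ?_⟩
  · rintro _ ⟨f, rfl⟩
    exact hg1 f
  · obtain ⟨f, hf1, hf2⟩ := mem_closure_iff.1 (hcl ⟨q, hq, rfl⟩) (O q) (hO q hq).1 (hO q hq).2
    refine ⟨g ⟨f, hf2⟩, ⟨_, rfl⟩, ?_⟩
    rw [hg2 ⟨f, hf2⟩]
    exact hf1

private theorem lin_fun {X : Type*} [TopologicalSpace X] [T35Space X] {x : X} {U : Set X} (hU : IsOpen U)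
    (hx : x ∈ U) : ∃ f : X → ℝ, Continuous f ∧ f x = 1 ∧ (∀ z, 0 ≤ f z) ∧ ∀ z, z ∉ U → f z = 0 := by
  obtain ⟨f, hf1, hf2, hf3⟩ := CompletelyRegularSpace.completely_regular x Uᶜ hU.isClosed_compl
    (fun h => h hx)
  refine ⟨fun z => 1 - (f z : ℝ), continuous_const.sub (continuous_subtype_val.comp hf1), ?_, fun z => ?_,
    fun z hz => ?_⟩
  · simp [hf2]
  · have := (f z).2.2
    linarith
  · have h1 : f z = 1 := hf3 hz
    simp [h1]

theorem lin_one {X : Type*} [TopologicalSpace X] [T35Space X] (hs : HS X) {S : Set X} {U : X → Set X}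
    (hU : ∀ x ∈ S, IsOpen (U x) ∧ x ∈ U x) : ∃ C ⊆ S, C.Countable ∧ S ⊆ ⋃ x ∈ C, U x := by
  classical
  have h1 : ∀ x, ∃ f : {f : X → ℝ // Continuous f}, x ∈ S → f.1 x = 1 ∧ ∀ z, z ∉ U x → f.1 z = 0 := by
    intro x
    by_cases hx : x ∈ S
    · obtain ⟨f, f1, f2, -, f4⟩ := lin_fun (hU x hx).1 (hU x hx).2
      exact ⟨⟨f, f1⟩, fun _ => ⟨f2, f4⟩⟩
    · exact ⟨⟨fun _ => 0, continuous_const⟩, fun h => absurd h hx⟩
  choose F hF using h1
  obtain ⟨C, hCS, hC, h2⟩ := lin_gen hs S F (fun q => {g | 0 < g.1 q}) (fun q hq =>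
    ⟨isOpen_lt continuous_const ((continuous_apply q).comp continuous_subtype_val), by
      show 0 < (F q).1 q
      rw [(hF q hq).1]
      exact one_pos⟩)
  refine ⟨C, hCS, hC, fun q hq => ?_⟩
  obtain ⟨s, hsC, h3⟩ := h2 q hq
  have h4 : 0 < (F s).1 q := h3
  refine Set.mem_biUnion hsC ?_
  by_contra h5
  rw [(hF s (hCS hsC)).2 q h5] at h4
  exact lt_irrefl _ h4

theorem lin_two {X : Type*} [TopologicalSpace X] [T35Space X] (hs : HS X) {S : Set (X × X)}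
    {A B : X × X → Set X} (h : ∀ p ∈ S, IsOpen (A p) ∧ p.1 ∈ A p ∧ IsOpen (B p) ∧ p.2 ∈ B p ∧
      Disjoint (A p) (B p)) : ∃ C ⊆ S, C.Countable ∧ S ⊆ ⋃ p ∈ C, A p ×ˢ B p := by
  classical
  have h1 : ∀ p, ∃ f : {f : X → ℝ // Continuous f}, p ∈ S → f.1 p.1 = 1 ∧ f.1 p.2 = -1 ∧
      (∀ z, 0 < f.1 z → z ∈ A p) ∧ ∀ z, f.1 z < 0 → z ∈ B p := by
    intro p
    by_cases hp : p ∈ S
    · obtain ⟨hA, hA1, hB, hB1, hAB⟩ := h p hp
      obtain ⟨a, a1, a2, a3, a4⟩ := lin_fun hA hA1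
      obtain ⟨b, b1, b2, b3, b4⟩ := lin_fun hB hB1
      refine ⟨⟨fun z => a z - b z, a1.sub b1⟩, fun _ => ⟨?_, ?_, fun z hz => ?_, fun z hz => ?_⟩⟩
      · have e : b p.1 = 0 := b4 _ (Set.disjoint_left.1 hAB hA1)
        show a p.1 - b p.1 = 1
        rw [a2, e, sub_zero]
      · have e : a p.2 = 0 := a4 _ (Set.disjoint_right.1 hAB hB1)
        show a p.2 - b p.2 = -1
        rw [b2, e, zero_sub]
      · by_contra hc
        have e := a4 z hc
        have e2 := b3 z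
        have hz' : 0 < a z - b z := hz
        rw [e] at hz'
        linarith
      · by_contra hc
        have e := b4 z hc
        have e2 := a3 z
        have hz' : a z - b z < 0 := hz
        rw [e] at hz'
        linarith
    · exact ⟨⟨fun _ => 0, continuous_const⟩, fun h => absurd h hp⟩
  choose F hF using h1
  obtain ⟨C, hCS, hC, h2⟩ := lin_gen hs S F (fun q => {g | 0 < g.1 q.1 ∧ g.1 q.2 < 0}) (fun q hq =>
    ⟨(isOpen_lt continuous_const ((continuous_apply q.1).comp continuous_subtype_val)).inter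
      (isOpen_lt ((continuous_apply q.2).comp continuous_subtype_val) continuous_const), by
      show 0 < (F q).1 q.1 ∧ (F q).1 q.2 < 0
      rw [(hF q hq).1, (hF q hq).2.1]
      exact ⟨one_pos, by norm_num⟩⟩)
  refine ⟨C, hCS, hC, fun q hq => ?_⟩
  obtain ⟨s, hsC, h3⟩ := h2 q hq
  have h4 : 0 < (F s).1 q.1 ∧ (F s).1 q.2 < 0 := h3
  exact Set.mem_biUnion hsC ⟨(hF s (hCS hsC)).2.2.1 _ h4.1, (hF s (hCS hsC)).2.2.2 _ h4.2⟩

end Pool.Agent.Lib.MP_8c4e2c_gt.CQ
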