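import Pool.Agent.Lib.MP_8c4e2c_gt.CQ.Asm

/-! MP_8c4e2c_gt, CQ. Maps to spaces with a countable network. -/

set_option autoImplicit false

namespace Pool.Agent.Lib.MP_8c4e2c_gt.CQ

theorem net {X Y : Type*} [TopologicalSpace X] [T35Space X] (hs : HS X) [TopologicalSpace Y] [RegularSpace Y]
    {N : Set (Set Y)} (hN : N.Countable)
    (hnet : ∀ U : Set Y, IsOpen U → ∀ y ∈ U, ∃ P ∈ N, y ∈ P ∧ P ⊆ U) {g : X → Y} (hg : Continuous g) :
    ∃ e : X → Q, Continuous e ∧ ∀ U : Set Y, IsOpen U → Fs e (g ⁻¹' U) := by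
  obtain ⟨P, hP⟩ := (hN.insert ∅).exists_eq_range (Set.insert_nonempty _ _)
  obtain ⟨e, he, hW⟩ := cz_all hs (G := fun i => g ⁻¹' (closure (P i))ᶜ)
    fun i => isClosed_closure.isOpen_compl.preimage hg
  refine ⟨e, he, fun U hU => ?_⟩
  have h1 : ∀ i, Fs e (g ⁻¹' closure (P i)) := by
    intro i
    obtain ⟨W, hWo, hWe⟩ := hW i
    have h2 : g ⁻¹' closure (P i) = e ⁻¹' Wᶜ := by
      rw [Set.preimage_compl, ← hWe, Set.preimage_compl, compl_compl]
    rw [h2]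
    exact fs_closed hWo.isClosed_compl
  have h3 : g ⁻¹' U = ⋃ i ∈ {i : ℕ | closure (P i) ⊆ U}, g ⁻¹' closure (P i) := by
    ext x
    simp only [Set.mem_preimage, Set.mem_iUnion, exists_prop]
    constructor
    · intro hx
      obtain ⟨V, hV, hxV, hVU⟩ : ∃ V : Set Y, IsOpen V ∧ g x ∈ V ∧ closure V ⊆ U := by
        obtain ⟨t, ht, htc, htU⟩ := exists_mem_nhds_isClosed_subset (hU.mem_nhds hx)
        exact ⟨interior t, isOpen_interior, mem_interior_iff_mem_nhds.2 ht,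
          (closure_minimal interior_subset htc).trans htU⟩
      obtain ⟨R, hR, hxR, hRV⟩ := hnet V hV (g x) hxV
      have h4 : R ∈ Set.range P := by
        rw [← hP]
        exact Set.mem_insert_of_mem _ hR
      obtain ⟨i, rfl⟩ := h4
      exact ⟨i, (closure_mono hRV).trans hVU, subset_closure hxR⟩
    · rintro ⟨i, hi, hx⟩
      exact hi hx
  rw [h3]
  exact fs_biUnion (Set.to_countable _) fun i _ => h1 i

/-- `local_fs` for a map which need not be inducing -/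
theorem local_fs_map {X : Type*} {L : ℕ → Type*} [∀ n, LinearOrder (L n)]
    [∀ n, TopologicalSpace (L n)] [∀ n, OrderTopology (L n)] (f : X → ∀ n, L n)
    {e : X → Q} (he : ∀ n (a : L n), Fs e ((fun x => f x n) ⁻¹' Set.Ioi a) ∧ Fs e ((fun x => f x n) ⁻¹' Set.Iio a))
    {U : Set (∀ n, L n)} (hU : IsOpen U) {x : X} (hx : f x ∈ U) :
    ∃ U' : Set (∀ n, L n), IsOpen U' ∧ f ⁻¹' U' ⊆ f ⁻¹' U ∧ f x ∈ U' ∧ Fs e (f ⁻¹' U') := by
  letI : TopologicalSpace X := TopologicalSpace.induced f inferInstance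
  obtain ⟨T, h1, h2, h3, h4⟩ := local_fs (i := f) ⟨rfl⟩ he (G := f ⁻¹' U) (isOpen_induced hU) hx
  obtain ⟨U', hU', rfl⟩ := isOpen_induced_iff.1 h3
  exact ⟨U', hU', h1, h2, h4⟩

end Pool.Agent.Lib.MP_8c4e2c_gt.CQ
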