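import Pool.Agent.Lib.MP_8c4e2c_gt.CQ.Cz
import Pool.Agent.Lib.MP_8c4e2c_gt.CQ.Fsa

/-! MP_8c4e2c_gt, CQ. Rays of a linearly ordered image are `F_sigma` in a coarser second countable topology. -/

set_option autoImplicit false

namespace Pool.Agent.Lib.MP_8c4e2c_gt.CQ

/-- preimages of open sets of the cube -/
private def Op {X : Type*} (e : X → Q) (S : Set X) : Prop := ∃ W : Set Q, IsOpen W ∧ S = e ⁻¹' W

private theorem op_union {X : Type*} {e : X → Q} {ι : Type*} {P : ι → Prop} {S : ι → Set X}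
    (h : ∀ i, P i → Op e (S i)) : Op e {x | ∃ i, P i ∧ x ∈ S i} := by
  choose! W hW1 hW2 using h
  refine ⟨{z | ∃ i, P i ∧ z ∈ W i}, ?_, ?_⟩
  · have h1 : {z | ∃ i, P i ∧ z ∈ W i} = ⋃ i, ⋃ (_ : P i), W i := by
      ext z
      simp
    rw [h1]
    exact isOpen_iUnion fun i => isOpen_iUnion fun hi => hW1 i hi
  · ext x
    simp only [Set.mem_setOf_eq, Set.mem_preimage]
    constructor
    · rintro ⟨i, hi, hx⟩
      refine ⟨i, hi, ?_⟩
      rw [hW2 i hi] at hx
      exact hx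
    · rintro ⟨i, hi, hx⟩
      refine ⟨i, hi, ?_⟩
      rw [hW2 i hi]
      exact hx

private theorem op_compl {X : Type*} {e : X → Q} {S T : Set X} (h : Op e S) (hT : T = Sᶜ) : Fs e T := by
  obtain ⟨W, hW, rfl⟩ := h
  rw [hT, ← Set.preimage_compl]
  exact fs_closed hW.isClosed_compl

private theorem op_fs {X : Type*} {e : X → Q} {S : Set X} (h : Op e S) : Fs e S := by
  obtain ⟨W, hW, rfl⟩ := h
  exact fs_open hW

private theorem sep {X L : Type*} [TopologicalSpace X] [LinearOrder L] [TopologicalSpace L]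
    [OrderTopology L] {g : X → L} (hg : Continuous g) (p : X × X) (hp : g p.1 < g p.2) :
    ∃ A B : Set X, IsOpen A ∧ p.1 ∈ A ∧ IsOpen B ∧ p.2 ∈ B ∧ ∀ a ∈ A, ∀ b ∈ B, g a < g b := by
  by_cases h : ∃ c, g p.1 < c ∧ c < g p.2
  · obtain ⟨c, h1, h2⟩ := h
    exact ⟨g ⁻¹' Set.Iio c, g ⁻¹' Set.Ioi c, isOpen_Iio.preimage hg, h1, isOpen_Ioi.preimage hg, h2,
      fun a ha b hb => lt_trans ha hb⟩
  · refine ⟨g ⁻¹' Set.Iio (g p.2), g ⁻¹' Set.Ioi (g p.1), isOpen_Iio.preimage hg, hp,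
      isOpen_Ioi.preimage hg, hp, fun a ha b hb => ?_⟩
    have h1 : g a ≤ g p.1 := by
      by_contra hcon
      exact h ⟨g a, not_le.1 hcon, ha⟩
    exact lt_of_le_of_lt h1 hb

private theorem rays {X L : Type*} [TopologicalSpace X] [T35Space X] (hs : HS X) [LinearOrder L]
    [TopologicalSpace L] [OrderTopology L] {g : X → L} (hg : Continuous g) :
    ∃ e : X → Q, Continuous e ∧ ∀ x, Op e {y | g x < g y} ∧ Op e {y | g y < g x} := by
  classical
  rcases isEmpty_or_nonempty X with hX | hX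
  · refine ⟨fun _ => fun _ => 0, continuous_const, fun x => ?_⟩
    exact isEmptyElim x
  have h0 := sep hg
  choose! A B hA hA' hB hB' hAB using h0
  obtain ⟨C, hCS, hCc, hC⟩ := lin_two hs (S := {p : X × X | g p.1 < g p.2}) (A := A) (B := B)
    (fun p hp => ⟨hA p hp, hA' p hp, hB p hp, hB' p hp, by
      rw [Set.disjoint_left]
      intro z hz hz'
      exact lt_irrefl _ (hAB p hp z hz z hz')⟩)
  obtain ⟨F, hF⟩ := Set.countable_iff_exists_subset_range.1 hCc
  have hG : ∀ i : ℕ, IsOpen (if F (i / 2) ∈ C then (if i % 2 = 0 then A (F (i / 2)) else B (F (i / 2)))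
      else (∅ : Set X)) := by
    intro i
    split_ifs with h1 h2
    · exact hA _ (hCS h1)
    · exact hB _ (hCS h1)
    · exact isOpen_empty
  obtain ⟨e, he, hW⟩ := cz_all hs hG
  have hOA : ∀ p ∈ C, Op e (A p) := by
    intro p hp
    obtain ⟨n, rfl⟩ := hF hp
    obtain ⟨W, hW1, hW2⟩ := hW (2 * n)
    have h1 : 2 * n / 2 = n := by omega
    have h2 : 2 * n % 2 = 0 := by omega
    rw [h1, if_pos hp, if_pos h2] at hW2
    exact ⟨W, hW1, hW2⟩
  have hOB : ∀ p ∈ C, Op e (B p) := by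
    intro p hp
    obtain ⟨n, rfl⟩ := hF hp
    obtain ⟨W, hW1, hW2⟩ := hW (2 * n + 1)
    have h1 : (2 * n + 1) / 2 = n := by omega
    have h2 : ¬ (2 * n + 1) % 2 = 0 := by omega
    rw [h1, if_pos hp, if_neg h2] at hW2
    exact ⟨W, hW1, hW2⟩
  refine ⟨e, he, fun x => ⟨?_, ?_⟩⟩
  · have h1 : {y | g x < g y} = {y | ∃ p, (p ∈ C ∧ x ∈ A p) ∧ y ∈ B p} := by
      ext y
      simp only [Set.mem_setOf_eq]
      constructor
      · intro hxy
        have h2 := hC (show (x, y) ∈ {p : X × X | g p.1 < g p.2} from hxy)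
        simp only [Set.mem_iUnion, Set.mem_prod] at h2
        obtain ⟨p, hp, h3, h4⟩ := h2
        exact ⟨p, ⟨hp, h3⟩, h4⟩
      · rintro ⟨p, ⟨hp, h3⟩, h4⟩
        exact hAB p (hCS hp) x h3 y h4
    rw [h1]
    exact op_union fun p hp => hOB p hp.1
  · have h1 : {y | g y < g x} = {y | ∃ p, (p ∈ C ∧ x ∈ B p) ∧ y ∈ A p} := by
      ext y
      simp only [Set.mem_setOf_eq]
      constructor
      · intro hxy
        have h2 := hC (show (y, x) ∈ {p : X × X | g p.1 < g p.2} from hxy)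
        simp only [Set.mem_iUnion, Set.mem_prod] at h2
        obtain ⟨p, hp, h3, h4⟩ := h2
        exact ⟨p, ⟨hp, h4⟩, h3⟩
      · rintro ⟨p, ⟨hp, h3⟩, h4⟩
        exact hAB p (hCS hp) y h4 x h3
    rw [h1]
    exact op_union fun p hp => hOA p hp.1

theorem ord {X L : Type*} [TopologicalSpace X] [T35Space X] (hs : HS X) [LinearOrder L] [TopologicalSpace L]
    [OrderTopology L] {g : X → L} (hg : Continuous g) :
    ∃ e : X → Q, Continuous e ∧ ∀ a : L, Fs e (g ⁻¹' Set.Ioi a) ∧ Fs e (g ⁻¹' Set.Iio a) := by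
  obtain ⟨e, he, h⟩ := rays hs hg
  refine ⟨e, he, fun a => ⟨?_, ?_⟩⟩
  · by_cases h1 : ∃ x, a < g x ∧ ∀ y, a < g y → g x ≤ g y
    · obtain ⟨x, hx, hx'⟩ := h1
      refine op_compl (h x).2 ?_
      ext y
      simp only [Set.mem_preimage, Set.mem_Ioi, Set.mem_compl_iff, Set.mem_setOf_eq, not_lt]
      exact ⟨fun hy => hx' y hy, fun hy => lt_of_lt_of_le hx hy⟩
    · push Not at h1
      refine op_fs ?_
      have h2 : g ⁻¹' Set.Ioi a = {y | ∃ x, a < g x ∧ y ∈ {y | g x < g y}} := by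
        ext y
        simp only [Set.mem_preimage, Set.mem_Ioi, Set.mem_setOf_eq]
        constructor
        · intro hy
          obtain ⟨z, hz, hz'⟩ := h1 y hy
          exact ⟨z, hz, hz'⟩
        · rintro ⟨x, hx, hxy⟩
          exact lt_trans hx hxy
      rw [h2]
      exact op_union fun x _ => (h x).1
  · by_cases h1 : ∃ x, g x < a ∧ ∀ y, g y < a → g y ≤ g x
    · obtain ⟨x, hx, hx'⟩ := h1
      refine op_compl (h x).1 ?_
      ext y
      simp only [Set.mem_preimage, Set.mem_Iio, Set.mem_compl_iff, Set.mem_setOf_eq, not_lt]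
      exact ⟨fun hy => hx' y hy, fun hy => lt_of_le_of_lt hy hx⟩
    · push Not at h1
      refine op_fs ?_
      have h2 : g ⁻¹' Set.Iio a = {y | ∃ x, g x < a ∧ y ∈ {y | g y < g x}} := by
        ext y
        simp only [Set.mem_preimage, Set.mem_Iio, Set.mem_setOf_eq]
        constructor
        · intro hy
          obtain ⟨z, hz, hz'⟩ := h1 y hy
          exact ⟨z, hz, hz'⟩
        · rintro ⟨x, hx, hxy⟩
          exact lt_trans hxy hx
      rw [h2]
      exact op_union fun x _ => (h x).2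

end Pool.Agent.Lib.MP_8c4e2c_gt.CQ
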