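import Pool.Agent.Lib.MP_8c4e2c_gt.CQ.Defs

/-! MP_8c4e2c_gt, CQ. Two disjoint sets of the first class are separated by a limit of continuous functions. -/

set_option autoImplicit false

namespace Pool.Agent.Lib.MP_8c4e2c_gt.CQ

open Filter

private theorem exists_phi {K : Set Q} (hK : IsClosed K) :
    ∃ φ : C(Q, ℝ), (∀ z, 0 ≤ φ z) ∧ (∀ z ∈ K, φ z = 0) ∧ ∀ z, z ∉ K → 0 < φ z := by
  letI : MetricSpace Q := TopologicalSpace.metrizableSpaceMetric Q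
  rcases K.eq_empty_or_nonempty with h | h
  · refine ⟨ContinuousMap.const Q 1, fun z => zero_le_one, fun z hz => ?_, fun z _ => zero_lt_one⟩
    rw [h] at hz
    exact absurd hz (Set.notMem_empty z)
  · refine ⟨⟨fun z => Metric.infDist z K, Metric.continuous_infDist_pt K⟩,
      fun z => Metric.infDist_nonneg, fun z hz => Metric.infDist_zero_of_mem hz, fun z hz => ?_⟩
    exact (hK.notMem_iff_infDist_pos h).1 hz

private theorem level {φ ψ : ℕ → ℝ} (hφ : ∀ m, 0 ≤ φ m) {m₀ : ℕ} (h0 : ∀ m, m₀ ≤ m → φ m = 0)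
    (hψ : ∀ m, 0 < ψ m) : ∀ᶠ n : ℕ in atTop,
    1 ≤ (n : ℝ) * (∑ m ∈ Finset.range n, (1 / 2 : ℝ) ^ m * min 1 (n * ψ m) -
      ∑ m ∈ Finset.range n, (1 / 2 : ℝ) ^ m * min 1 (n * φ m)) := by
  have e1 : ∀ᶠ n : ℕ in atTop, ∀ m ∈ Finset.range (m₀ + 1), 1 ≤ (n : ℝ) * ψ m := by
    rw [Filter.eventually_all_finset]
    intro m _
    exact ((tendsto_natCast_atTop_atTop (R := ℝ)).atTop_mul_const (hψ m)).eventually_ge_atTop 1
  have e2 : ∀ᶠ n : ℕ in atTop, 1 ≤ (n : ℝ) * (1 / 2 : ℝ) ^ m₀ :=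
    ((tendsto_natCast_atTop_atTop (R := ℝ)).atTop_mul_const (by positivity)).eventually_ge_atTop 1
  filter_upwards [e1, e2, eventually_ge_atTop (m₀ + 1)] with n h1 h2 h3
  have hA : ∑ m ∈ Finset.range n, (1 / 2 : ℝ) ^ m * min 1 (n * φ m) ≤
      ∑ m ∈ Finset.range m₀, (1 / 2 : ℝ) ^ m := by
    have h4 : ∑ m ∈ Finset.range m₀, (1 / 2 : ℝ) ^ m * min 1 (n * φ m) =
        ∑ m ∈ Finset.range n, (1 / 2 : ℝ) ^ m * min 1 (n * φ m) := by
      refine Finset.sum_subset (Finset.range_mono (by omega)) fun m _ hm => ?_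
      rw [h0 m (not_lt.1 fun h => hm (Finset.mem_range.2 h)), mul_zero, min_eq_right zero_le_one, mul_zero]
    rw [← h4]
    refine Finset.sum_le_sum fun m _ => ?_
    exact mul_le_of_le_one_right (by positivity) (min_le_left _ _)
  have hB : ∑ m ∈ Finset.range (m₀ + 1), (1 / 2 : ℝ) ^ m ≤
      ∑ m ∈ Finset.range n, (1 / 2 : ℝ) ^ m * min 1 (n * ψ m) := by
    have h4 : ∑ m ∈ Finset.range (m₀ + 1), (1 / 2 : ℝ) ^ m =
        ∑ m ∈ Finset.range (m₀ + 1), (1 / 2 : ℝ) ^ m * min 1 (n * ψ m) := by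
      refine Finset.sum_congr rfl fun m hm => ?_
      rw [min_eq_left (h1 m hm), mul_one]
    rw [h4]
    refine Finset.sum_le_sum_of_subset_of_nonneg (Finset.range_mono h3) fun m _ _ => ?_
    have h5 : 0 ≤ (n : ℝ) * ψ m := mul_nonneg (Nat.cast_nonneg n) (hψ m).le
    exact mul_nonneg (by positivity) (le_min zero_le_one h5)
  rw [Finset.sum_range_succ] at hB
  have hn : (0 : ℝ) ≤ n := Nat.cast_nonneg n
  refine h2.trans (mul_le_mul_of_nonneg_left ?_ hn)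
  linarith

theorem two_level {X : Type*} {e : X → Q} {A B : Set X} (hA : Fs e A) (hB : Fs e B) (hd : Disjoint A B) :
    ∃ v : ℕ → C(Q, ℝ), (∀ n z, |v n z| ≤ 1) ∧ (∀ x ∈ A, ∀ᶠ n in atTop, v n (e x) = -1) ∧
      ∀ x ∈ B, ∀ᶠ n in atTop, v n (e x) = 1 := by
  obtain ⟨K, hK, hKA⟩ := hA
  obtain ⟨L, hL, hLB⟩ := hB
  have hK' : ∀ m, IsClosed (⋃ l ∈ Finset.range (m + 1), K l) := fun m =>
    isClosed_biUnion_finset fun l _ => hK l
  have hL' : ∀ m, IsClosed (⋃ l ∈ Finset.range (m + 1), L l) := fun m =>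
    isClosed_biUnion_finset fun l _ => hL l
  choose φ hφ1 hφ2 hφ3 using fun m => exists_phi (hK' m)
  choose ψ hψ1 hψ2 hψ3 using fun m => exists_phi (hL' m)
  have hxA : ∀ x ∈ A, (∃ m₀, ∀ m, m₀ ≤ m → φ m (e x) = 0) ∧ ∀ m, 0 < ψ m (e x) := by
    intro x hx
    constructor
    · have h1 : x ∈ ⋃ m, e ⁻¹' (K m) := by rw [← hKA]; exact hx
      obtain ⟨m₀, hm₀⟩ := Set.mem_iUnion.1 h1
      refine ⟨m₀, fun m hm => hφ2 m _ ?_⟩
      exact Set.mem_biUnion (Finset.mem_coe.2 (Finset.mem_range.2 (by omega))) hm₀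
    · intro m
      apply hψ3
      intro h1
      obtain ⟨l, -, hl⟩ := Set.mem_iUnion₂.1 h1
      have h2 : x ∈ B := by
        rw [hLB]
        exact Set.mem_iUnion.2 ⟨l, hl⟩
      exact Set.disjoint_left.1 hd hx h2
  have hxB : ∀ x ∈ B, (∃ m₀, ∀ m, m₀ ≤ m → ψ m (e x) = 0) ∧ ∀ m, 0 < φ m (e x) := by
    intro x hx
    constructor
    · have h1 : x ∈ ⋃ m, e ⁻¹' (L m) := by rw [← hLB]; exact hx
      obtain ⟨m₀, hm₀⟩ := Set.mem_iUnion.1 h1
      refine ⟨m₀, fun m hm => hψ2 m _ ?_⟩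
      exact Set.mem_biUnion (Finset.mem_coe.2 (Finset.mem_range.2 (by omega))) hm₀
    · intro m
      apply hφ3
      intro h1
      obtain ⟨l, -, hl⟩ := Set.mem_iUnion₂.1 h1
      have h2 : x ∈ A := by
        rw [hKA]
        exact Set.mem_iUnion.2 ⟨l, hl⟩
      exact Set.disjoint_left.1 hd h2 hx
  refine ⟨fun n => ⟨fun z => max (-1) (min 1 ((n : ℝ) *
    (∑ m ∈ Finset.range n, (1 / 2 : ℝ) ^ m * min 1 (n * φ m z) -
      ∑ m ∈ Finset.range n, (1 / 2 : ℝ) ^ m * min 1 (n * ψ m z)))), by fun_prop⟩, ?_, ?_, ?_⟩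
  · intro n z
    rw [abs_le]
    exact ⟨le_max_left _ _, max_le (by norm_num) (min_le_left _ _)⟩
  · intro x hx
    obtain ⟨⟨m₀, h1⟩, h2⟩ := hxA x hx
    filter_upwards [level (fun m => hφ1 m (e x)) h1 h2] with n hn
    change max (-1) (min 1 ((n : ℝ) * (∑ m ∈ Finset.range n, (1 / 2 : ℝ) ^ m * min 1 (n * φ m (e x)) -
      ∑ m ∈ Finset.range n, (1 / 2 : ℝ) ^ m * min 1 (n * ψ m (e x))))) = -1
    apply max_eq_left
    refine (min_le_right _ _).trans ?_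
    rw [mul_sub] at hn ⊢
    linarith
  · intro x hx
    obtain ⟨⟨m₀, h1⟩, h2⟩ := hxB x hx
    filter_upwards [level (fun m => hψ1 m (e x)) h1 h2] with n hn
    change max (-1) (min 1 ((n : ℝ) * (∑ m ∈ Finset.range n, (1 / 2 : ℝ) ^ m * min 1 (n * φ m (e x)) -
      ∑ m ∈ Finset.range n, (1 / 2 : ℝ) ^ m * min 1 (n * ψ m (e x))))) = 1
    rw [min_eq_left hn]
    norm_num

end Pool.Agent.Lib.MP_8c4e2c_gt.CQ
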