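import Pool.Agent.Lib.MP_8c4e2c_gt.CQ.Fsa
import Pool.Agent.Lib.MP_8c4e2c_gt.CQ.Two

/-! MP_8c4e2c_gt, CQ. A function of the first class is a pointwise limit of continuous functions on the cube. -/

set_option autoImplicit false

namespace Pool.Agent.Lib.MP_8c4e2c_gt.CQ

open Filter Topology

/-- all sets `r < a` and `r > a` are `Fs` -/
def B1 {X : Type*} (e : X → Q) (r : X → ℝ) : Prop := ∀ a : ℝ, Fs e {x | r x < a} ∧ Fs e {x | a < r x}

theorem ser_step {X : Type*} {e : X → Q} {r : X → ℝ} (hr : B1 e r) {R : ℝ} (hR : 0 < R) (hb : ∀ x, |r x| ≤ R) :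
    ∃ (g : X → ℝ) (v : ℕ → C(Q, ℝ)), B1 e (fun x => r x - g x) ∧ (∀ x, |r x - g x| ≤ 2 / 3 * R) ∧
      (∀ n z, |v n z| ≤ R / 3) ∧ ∀ x, Tendsto (fun n => v n (e x)) atTop (𝓝 (g x)) := by
  classical
  obtain ⟨A', B', hA', hB', hAA, hBB, hd, hu⟩ := fs_red (hr (R / 3)).1 (hr (-(R / 3))).2 (by
    ext x
    simp only [Set.mem_union, Set.mem_setOf_eq, Set.mem_univ, iff_true]
    by_cases h : r x < R / 3
    · exact Or.inl h
    · right
      linarith)
  obtain ⟨v0, hv1, hvA, hvB⟩ := two_level hA' hB' hd
  have hcov : ∀ x, x ∈ A' ∨ x ∈ B' := fun x => by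
    have : x ∈ A' ∪ B' := by rw [hu]; exact Set.mem_univ x
    exact this
  have hBn : ∀ x ∈ B', x ∉ A' := fun x hx hx' => Set.disjoint_left.1 hd hx' hx
  have gA : ∀ x ∈ A', (if x ∈ A' then -(R / 3) else R / 3) = -(R / 3) := fun x hx => if_pos hx
  have gB : ∀ x ∈ B', (if x ∈ A' then -(R / 3) else R / 3) = R / 3 := fun x hx => if_neg (hBn x hx)
  refine ⟨fun x => if x ∈ A' then -(R / 3) else R / 3, fun n => (R / 3) • v0 n, ?_, ?_, ?_, ?_⟩
  · intro a
    constructor
    · have h1 : {x | r x - (if x ∈ A' then -(R / 3) else R / 3) < a} =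
          ({x | r x < a - R / 3} ∩ A') ∪ ({x | r x < a + R / 3} ∩ B') := by
        ext x
        simp only [Set.mem_union, Set.mem_inter_iff, Set.mem_setOf_eq]
        rcases hcov x with hx | hx
        · have hxB : x ∉ B' := fun h => hBn x h hx
          rw [gA x hx]
          constructor
          · intro h
            exact Or.inl ⟨by linarith, hx⟩
          · rintro (⟨h, _⟩ | ⟨_, h⟩)
            · linarith
            · exact absurd h hxB
        · have hxA : x ∉ A' := hBn x hx
          rw [gB x hx]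
          constructor
          · intro h
            exact Or.inr ⟨by linarith, hx⟩
          · rintro (⟨_, h⟩ | ⟨h, _⟩)
            · exact absurd h hxA
            · linarith
      rw [h1]
      exact fs_union (fs_inter (hr _).1 hA') (fs_inter (hr _).1 hB')
    · have h1 : {x | a < r x - (if x ∈ A' then -(R / 3) else R / 3)} =
          ({x | a - R / 3 < r x} ∩ A') ∪ ({x | a + R / 3 < r x} ∩ B') := by
        ext x
        simp only [Set.mem_union, Set.mem_inter_iff, Set.mem_setOf_eq]
        rcases hcov x with hx | hx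
        · have hxB : x ∉ B' := fun h => hBn x h hx
          rw [gA x hx]
          constructor
          · intro h
            exact Or.inl ⟨by linarith, hx⟩
          · rintro (⟨h, _⟩ | ⟨_, h⟩)
            · linarith
            · exact absurd h hxB
        · have hxA : x ∉ A' := hBn x hx
          rw [gB x hx]
          constructor
          · intro h
            exact Or.inr ⟨by linarith, hx⟩
          · rintro (⟨_, h⟩ | ⟨h, _⟩)
            · exact absurd h hxA
            · linarith
      rw [h1]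
      exact fs_union (fs_inter (hr _).2 hA') (fs_inter (hr _).2 hB')
  · intro x
    have h0 := abs_le.1 (hb x)
    rcases hcov x with hx | hx
    · have h1 : r x < R / 3 := hAA hx
      change |r x - (if x ∈ A' then -(R / 3) else R / 3)| ≤ 2 / 3 * R
      rw [gA x hx, abs_le]
      constructor <;> linarith
    · have h1 : -(R / 3) < r x := hBB hx
      change |r x - (if x ∈ A' then -(R / 3) else R / 3)| ≤ 2 / 3 * R
      rw [gB x hx, abs_le]
      constructor <;> linarith
  · intro n z
    change |(R / 3) • v0 n z| ≤ R / 3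
    rw [smul_eq_mul, abs_mul, abs_of_pos (by linarith : (0 : ℝ) < R / 3)]
    have := hv1 n z
    nlinarith [abs_nonneg (v0 n z)]
  · intro x
    change Tendsto (fun n => (R / 3) • v0 n (e x)) atTop (𝓝 (if x ∈ A' then -(R / 3) else R / 3))
    rcases hcov x with hx | hx
    · rw [gA x hx]
      refine tendsto_const_nhds.congr' ?_
      filter_upwards [hvA x hx] with n hn
      rw [hn, smul_eq_mul]
      ring
    · rw [gB x hx]
      refine tendsto_const_nhds.congr' ?_
      filter_upwards [hvB x hx] with n hn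
      rw [hn, smul_eq_mul]
      ring

theorem ser {X : Type*} {e : X → Q} {f : X → ℝ} (hf : B1 e f) (hb : ∀ x, |f x| ≤ 1) :
    ∃ h : ℕ → C(Q, ℝ), ∀ x, Tendsto (fun n => h n (e x)) atTop (𝓝 (f x)) := by
  have step : ∀ (j : ℕ) (r : X → ℝ), (B1 e r ∧ ∀ x, |r x| ≤ (2 / 3 : ℝ) ^ j) →
      ∃ (g : X → ℝ) (v : ℕ → C(Q, ℝ)), (B1 e (fun x => r x - g x) ∧
        ∀ x, |r x - g x| ≤ (2 / 3 : ℝ) ^ (j + 1)) ∧
        (∀ n z, |v n z| ≤ (2 / 3 : ℝ) ^ j / 3) ∧ ∀ x, Tendsto (fun n => v n (e x)) atTop (𝓝 (g x)) := by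
    intro j r hr
    obtain ⟨g, v, h1, h2, h3, h4⟩ := ser_step hr.1 (by positivity : (0 : ℝ) < (2 / 3 : ℝ) ^ j) hr.2
    exact ⟨g, v, ⟨h1, fun x => (h2 x).trans_eq (by rw [pow_succ]; ring)⟩, h3, h4⟩
  choose! g v h1 h2 h3 using step
  let r : ℕ → X → ℝ := fun j => Nat.rec (motive := fun _ => X → ℝ) f
    (fun j rj => fun x => rj x - g j rj x) j
  have hrs : ∀ j, r (j + 1) = fun x => r j x - g j (r j) x := fun j => rfl
  have hr : ∀ j, B1 e (r j) ∧ ∀ x, |r j x| ≤ (2 / 3 : ℝ) ^ j := by
    intro j
    induction j with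
    | zero => exact ⟨hf, fun x => by rw [pow_zero]; exact hb x⟩
    | succ j ih =>
      rw [hrs]
      exact h1 j (r j) ih
  have hgeo : Summable fun j : ℕ => (2 / 3 : ℝ) ^ j / 3 :=
    (summable_geometric_of_lt_one (by norm_num) (by norm_num)).div_const 3
  refine ⟨fun n => ∑ j ∈ Finset.range n, v j (r j) n, fun x => ?_⟩
  have hg : ∀ j, |g j (r j) x| ≤ (2 / 3 : ℝ) ^ j / 3 := fun j =>
    le_of_tendsto (h3 j (r j) (hr j) x).abs (Eventually.of_forall fun n => h2 j (r j) (hr j) n (e x))
  have hsum : Summable fun j => g j (r j) x :=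
    Summable.of_norm_bounded hgeo fun j => hg j
  have htel : ∀ J, ∑ j ∈ Finset.range J, g j (r j) x = f x - r J x := by
    intro J
    induction J with
    | zero => rw [Finset.sum_range_zero]; exact (sub_self (f x)).symm
    | succ J ih =>
      rw [Finset.sum_range_succ, ih, hrs]
      ring
  have hr0 : Tendsto (fun J => r J x) atTop (𝓝 0) := by
    refine squeeze_zero_norm (fun J => (hr J).2 x) ?_
    exact tendsto_pow_atTop_nhds_zero_of_lt_one (by norm_num) (by norm_num)
  have htsum : ∑' j, g j (r j) x = f x := by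
    refine tendsto_nhds_unique hsum.hasSum.tendsto_sum_nat ?_
    have h5 : Tendsto (fun J => f x - r J x) atTop (𝓝 (f x - 0)) := tendsto_const_nhds.sub hr0
    rw [sub_zero] at h5
    exact h5.congr fun J => (htel J).symm
  have key : Tendsto (fun n => ∑' j, (if j < n then v j (r j) n (e x) else 0)) atTop
      (𝓝 (∑' j, g j (r j) x)) := by
    refine tendsto_tsum_of_dominated_convergence hgeo ?_ ?_
    · intro j
      refine (h3 j (r j) (hr j) x).congr' ?_
      filter_upwards [eventually_gt_atTop j] with n hn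
      rw [if_pos hn]
    · refine Eventually.of_forall fun n j => ?_
      by_cases hj : j < n
      · rw [if_pos hj]
        exact h2 j (r j) (hr j) n (e x)
      · rw [if_neg hj, norm_zero]
        positivity
  rw [htsum] at key
  refine key.congr fun n => ?_
  rw [tsum_eq_sum (s := Finset.range n) (fun j hj => if_neg (by simpa using hj)),
    ContinuousMap.coe_sum, Finset.sum_apply]
  refine Finset.sum_congr rfl fun j hj => ?_
  rw [if_pos (Finset.mem_range.1 hj)]

end Pool.Agent.Lib.MP_8c4e2c_gt.CQ
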