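import Pool.Agent.Lib.MP_8c4e2c_gt.CQ.Net

/-! MP_8c4e2c_gt, CQ. Maps to spaces with a sequentially separable function space. -/

set_option autoImplicit false

namespace Pool.Agent.Lib.MP_8c4e2c_gt.CQ

open Filter Topology

theorem sq_sets {X Z : Type*} [TopologicalSpace X] [T35Space X] (hs : HS X) [TopologicalSpace Z]
    (hZ : ∃ D : Set {f : Z → ℝ // Continuous f}, D.Countable ∧ seqClosure D = Set.univ) {g : X → Z}
    (hg : Continuous g) :
    ∃ e : X → Q, Continuous e ∧ ∀ f : Z → ℝ, Continuous f → ∀ a : ℝ, Fs e {x | a < f (g x)} := by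
  obtain ⟨D, hD, hDs⟩ := hZ
  let z0 : {f : Z → ℝ // Continuous f} := ⟨fun _ => 0, continuous_const⟩
  obtain ⟨d, hd⟩ := (hD.insert z0).exists_eq_range (Set.insert_nonempty _ _)
  obtain ⟨p, hp⟩ := exists_surjective_nat (ℕ × ℚ)
  obtain ⟨e, he, hW⟩ := cz_all hs (G := fun j => {x : X | (d (p j).1).1 (g x) < ((p j).2 : ℝ)})
    fun j => isOpen_lt ((d (p j).1).2.comp hg) continuous_const
  have h1 : ∀ (k : ℕ) (q : ℚ), ∃ K : Set Q, IsClosed K ∧ {x : X | (q : ℝ) ≤ (d k).1 (g x)} = e ⁻¹' K := by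
    intro k q
    obtain ⟨j, hj⟩ := hp (k, q)
    obtain ⟨W, hWo, hWe⟩ := hW j
    refine ⟨Wᶜ, hWo.isClosed_compl, ?_⟩
    rw [Set.preimage_compl, ← hWe, hj]
    ext x
    simp only [Set.mem_setOf_eq, Set.mem_compl_iff, not_lt]
  refine ⟨e, he, fun f hf a => ?_⟩
  have hfD : (⟨f, hf⟩ : {f : Z → ℝ // Continuous f}) ∈ seqClosure D := by rw [hDs]; trivial
  obtain ⟨u, huD, hu⟩ := hfD
  have hk : ∀ n, ∃ k, u n = d k := by
    intro n
    have h2 : u n ∈ Set.range d := by
      rw [← hd]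
      exact Set.mem_insert_of_mem _ (huD n)
    obtain ⟨k, hk⟩ := h2
    exact ⟨k, hk.symm⟩
  choose k hk using hk
  have hlim : ∀ z, Tendsto (fun n => (u n).1 z) atTop (𝓝 (f z)) := by
    rw [tendsto_subtype_rng, tendsto_pi_nhds] at hu
    exact hu
  choose K hK1 hK2 using h1
  have h3 : {x | a < f (g x)} = ⋃ r ∈ {r : ℚ × ℕ | a < (r.1 : ℝ)},
      e ⁻¹' (⋂ n : ℕ, if r.2 ≤ n then K (k n) r.1 else Set.univ) := by
    ext x
    simp only [Set.mem_setOf_eq, Set.mem_iUnion, Set.preimage_iInter, Set.mem_iInter, exists_prop]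
    constructor
    · intro hx
      obtain ⟨q, hq1, hq2⟩ := exists_rat_btwn hx
      obtain ⟨N, hN⟩ := eventually_atTop.1 ((hlim (g x)).eventually (lt_mem_nhds hq2))
      refine ⟨(q, N), hq1, fun n => ?_⟩
      by_cases hn : N ≤ n
      · simp only [hn, if_true]
        rw [← hK2 (k n) q]
        change (q : ℝ) ≤ (d (k n)).1 (g x)
        rw [← hk n]
        exact (hN n hn).le
      · simp only [hn, if_false]
        trivial
    · rintro ⟨⟨q, N⟩, hq, hx⟩
      refine lt_of_lt_of_le hq ?_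
      refine ge_of_tendsto (hlim (g x)) ?_
      filter_upwards [eventually_ge_atTop N] with n hn
      have h4 := hx n
      simp only [hn, if_true] at h4
      rw [← hK2 (k n) q] at h4
      rw [hk n]
      exact h4
  rw [h3]
  refine fs_biUnion (Set.to_countable _) fun r _ => fs_closed ?_
  refine isClosed_iInter fun n => ?_
  split_ifs
  · exact hK1 _ _
  · exact isClosed_univ

theorem sq {X Z : Type*} [TopologicalSpace X] [T35Space X] (hs : HS X) [TopologicalSpace Z]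
    [CompletelyRegularSpace Z]
    (hZ : ∃ D : Set {f : Z → ℝ // Continuous f}, D.Countable ∧ seqClosure D = Set.univ) {g : X → Z}
    (hg : Continuous g) :
    ∃ e : X → Q, Continuous e ∧ ∀ U : Set Z, IsOpen U → ∀ z ∈ U, ∃ V ⊆ U, IsOpen V ∧ z ∈ V ∧
      Fs e (g ⁻¹' V) := by
  obtain ⟨e, he, h⟩ := sq_sets hs hZ hg
  refine ⟨e, he, fun U hU z hz => ?_⟩
  obtain ⟨f, hf, hf0, hf1⟩ := CompletelyRegularSpace.completely_regular z Uᶜ hU.isClosed_compl
    (fun h => h hz)
  have hfc : Continuous fun y => 1 - (f y : ℝ) := continuous_const.sub (continuous_subtype_val.comp hf)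
  refine ⟨{y | (0 : ℝ) < 1 - (f y : ℝ)}, ?_, isOpen_lt continuous_const hfc, ?_,
    h (fun y => 1 - (f y : ℝ)) hfc 0⟩
  · intro y hy
    by_contra hyU
    have h2 : f y = 1 := hf1 hyU
    have hy' : (0 : ℝ) < 1 - (f y : ℝ) := hy
    rw [h2] at hy'
    simp at hy'
  · change (0 : ℝ) < 1 - (f z : ℝ)
    rw [hf0]
    simp

end Pool.Agent.Lib.MP_8c4e2c_gt.CQ
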